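import Pool.Agent.Lib.MP_5c318e_ag.Tw.TDefs
import Pool.Agent.Lib.MP_5c318e_ag.RD.RInt

/-! Moments of the size and of the tower weight, with constants that are explicit in the base point. -/

set_option autoImplicit false

namespace Pool.Agent.Lib.MP_5c318e_ag.Mm

open MeasureTheory Set

noncomputable section

theorem pow_le_exp (q : ℕ) {ε : ℝ} (hε : 0 < ε) :
    ∃ c : ℝ, 1 ≤ c ∧ ∀ x : ℝ, 0 ≤ x → x ^ q ≤ c * Real.exp (ε * x) := by
  refine ⟨1 + q.factorial / ε ^ q, le_add_of_nonneg_right (by positivity), fun x hx => ?_⟩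
  have h := Real.pow_div_factorial_le_exp (ε * x) (by positivity) q
  rw [div_le_iff₀ (by positivity), mul_pow] at h
  have h1 : x ^ q ≤ q.factorial / ε ^ q * Real.exp (ε * x) := by
    rw [div_mul_eq_mul_div, le_div_iff₀ (by positivity)]
    linarith
  nlinarith [Real.exp_pos (ε * x)]

section pure

variable {S : Type} [MeasurableSpace S] {μ : Measure S} {L Λ ρ : S → ℝ} {M : ℕ} {C0 K : ℝ}

/-- a size, a logarithmic volume density and a density of finite mass -/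
structure Tri (μ : Measure S) (L Λ ρ : S → ℝ) (M : ℕ) (C0 K : ℝ) : Prop where
  mL : Measurable L
  mΛ : Measurable Λ
  mρ : Measurable ρ
  one : ∀ x, 1 ≤ L x
  posΛ : ∀ x, 0 < Λ x
  posρ : ∀ x, 0 < ρ x
  c0 : 0 ≤ C0
  K0 : 0 ≤ K
  mass : ∫⁻ x, ENNReal.ofReal (ρ x) ∂μ ≤ ENNReal.ofReal C0
  vol : ∫⁻ x, ENNReal.ofReal (Λ x / L x ^ M) ∂μ ≤ ENNReal.ofReal K

theorem lint_two {f g u : S → ℝ} (hf : Measurable f) (hg : Measurable g) {a b A B : ℝ} (ha : 0 ≤ a)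
    (hb : 0 ≤ b) (hA : 0 ≤ A) (hB : 0 ≤ B) (h1 : ∫⁻ x, ENNReal.ofReal (f x) ∂μ ≤ ENNReal.ofReal A)
    (h2 : ∫⁻ x, ENNReal.ofReal (g x) ∂μ ≤ ENNReal.ofReal B) (h : ∀ x, u x ≤ a * f x + b * g x) :
    ∫⁻ x, ENNReal.ofReal (u x) ∂μ ≤ ENNReal.ofReal (a * A + b * B) := by
  calc ∫⁻ x, ENNReal.ofReal (u x) ∂μ
      ≤ ∫⁻ x, ENNReal.ofReal a * ENNReal.ofReal (f x) +
          ENNReal.ofReal b * ENNReal.ofReal (g x) ∂μ := by
        refine lintegral_mono fun x => (ENNReal.ofReal_le_ofReal (h x)).trans ?_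
        rw [← ENNReal.ofReal_mul ha, ← ENNReal.ofReal_mul hb]
        exact ENNReal.ofReal_add_le
    _ = ENNReal.ofReal a * ∫⁻ x, ENNReal.ofReal (f x) ∂μ +
          ENNReal.ofReal b * ∫⁻ x, ENNReal.ofReal (g x) ∂μ := by
        rw [lintegral_add_left (hf.ennreal_ofReal.const_mul _),
          lintegral_const_mul _ hf.ennreal_ofReal, lintegral_const_mul _ hg.ennreal_ofReal]
    _ ≤ ENNReal.ofReal a * ENNReal.ofReal A + ENNReal.ofReal b * ENNReal.ofReal B := by gcongr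
    _ = _ := by
        rw [← ENNReal.ofReal_mul ha, ← ENNReal.ofReal_mul hb,
          ← ENNReal.ofReal_add (by positivity) (by positivity)]

theorem Tri.mvol (h : Tri μ L Λ ρ M C0 K) : Measurable fun x => Λ x / L x ^ M :=
  h.mΛ.div (h.mL.pow_const M)

/-- moments of the size -/
theorem mom_pure (M q : ℕ) {ε : ℝ} (hε : 0 < ε) : ∃ c : ℝ, 0 ≤ c ∧
    ∀ {S : Type} [MeasurableSpace S] {μ : Measure S} {L Λ ρ : S → ℝ} {C0 K a : ℝ},
    Tri μ L Λ ρ M C0 K → 0 ≤ a → (∀ x, ρ x * Real.exp (ε * L x) ≤ Real.exp a * Λ x) →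
    ∫⁻ x, ENNReal.ofReal (L x ^ q * ρ x) ∂μ ≤ ENNReal.ofReal ((2 * a / ε) ^ q * C0 + c * K) := by
  obtain ⟨c, c1, hc⟩ := pow_le_exp (q + M) (half_pos hε)
  refine ⟨c, by linarith, fun {S} _ {μ L Λ ρ C0 K a} h ha hp => ?_⟩
  refine lint_two h.mρ h.mvol (by positivity) (by linarith) h.c0 h.K0 h.mass h.vol fun x => ?_
  have l0 : 0 < L x := one_pos.trans_le (h.one x)
  have r0 := h.posρ x
  have v0 := h.posΛ x
  rcases le_or_gt (L x) (2 * a / ε) with h1 | h1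
  · have : L x ^ q * ρ x ≤ (2 * a / ε) ^ q * ρ x := by gcongr
    have : 0 ≤ c * (Λ x / L x ^ M) := by positivity
    linarith
  · have h2 : a + ε / 2 * L x ≤ ε * L x := by
      rw [div_lt_iff₀ hε] at h1
      linarith
    have h3 : ρ x * Real.exp (ε / 2 * L x) ≤ Λ x := by
      have h4 := (mul_le_mul_of_nonneg_left (Real.exp_le_exp.2 h2) r0.le).trans (hp x)
      rw [Real.exp_add] at h4
      nlinarith [Real.exp_pos a]
    have h5 : L x ^ q * ρ x ≤ c * (Λ x / L x ^ M) := by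
      rw [← mul_div_assoc, le_div_iff₀ (by positivity)]
      have h6 := hc _ l0.le
      rw [pow_add] at h6
      nlinarith [mul_le_mul_of_nonneg_right h6 r0.le, mul_le_mul_of_nonneg_left h3 (by linarith : 0 ≤ c)]
    have : 0 ≤ (2 * a / ε) ^ q * ρ x := by positivity
    linarith

/-- the interpolated density -/
theorem Tri.tail (h : Tri μ L Λ ρ M C0 K) {γ α : ℝ} (γ0 : 0 < γ) (γ1 : γ < 1) {q : ℕ}
    (hq : M * γ + α ≤ q * (1 - γ)) {m : ℝ} (m0 : 0 ≤ m)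
    (hm : ∫⁻ x, ENNReal.ofReal (L x ^ q * ρ x) ∂μ ≤ ENNReal.ofReal m) :
    ∫⁻ x, ENNReal.ofReal (L x ^ α * (Λ x ^ γ * ρ x ^ (1 - γ))) ∂μ ≤ ENNReal.ofReal (K + m) := by
  refine (lint_two (g := fun x => L x ^ q * ρ x) h.mvol ((h.mL.pow_const q).mul h.mρ) γ0.le (sub_nonneg.2 γ1.le) h.K0 m0 h.vol hm
    fun x => ?_).trans (ENNReal.ofReal_le_ofReal (by nlinarith [h.K0]))
  have l0 : 0 < L x := one_pos.trans_le (h.one x)
  have r0 := h.posρ x
  have v0 := h.posΛ x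
  refine le_trans ?_ (Real.geom_mean_le_arith_mean2_weighted γ0.le (sub_nonneg.2 γ1.le)
    (by positivity) (by positivity) (by ring))
  rw [Real.div_rpow v0.le (by positivity), Real.mul_rpow (by positivity) r0.le,
    ← Real.rpow_natCast, ← Real.rpow_natCast, ← Real.rpow_mul l0.le, ← Real.rpow_mul l0.le]
  have h1 : L x ^ α ≤ L x ^ (q * (1 - γ)) / L x ^ (M * γ) := by
    rw [← Real.rpow_sub l0]
    exact Real.rpow_le_rpow_of_exponent_le (h.one x) (by linarith)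
  calc L x ^ α * (Λ x ^ γ * ρ x ^ (1 - γ))
      ≤ L x ^ (q * (1 - γ)) / L x ^ (M * γ) * (Λ x ^ γ * ρ x ^ (1 - γ)) := by gcongr
    _ = _ := by ring

/-- the positive part of the weight -/
theorem Tri.logp (h : Tri μ L Λ ρ M C0 K) {α : ℝ} {q : ℕ} (hq : M + α ≤ q) {m : ℝ} (m0 : 0 ≤ m)
    (hm : ∫⁻ x, ENNReal.ofReal (L x ^ q * ρ x) ∂μ ≤ ENNReal.ofReal m) {T : ℝ} (hT : 0 ≤ T) :
    ∫⁻ x, ENNReal.ofReal ((Real.log (Λ x / ρ x) + α * Real.log (L x)) * ρ x) ∂μ ≤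
      ENNReal.ofReal (T * C0 + 2 * Real.exp (-(T / 2)) * (K + m)) := by
  have ht := h.tail (γ := 1 / 2) (α := α / 2) (by norm_num) (by norm_num) (q := q) (by linarith) m0 hm
  refine lint_two (g := fun x => L x ^ (α / 2) * (Λ x ^ (1 / 2 : ℝ) * ρ x ^ (1 - 1 / 2 : ℝ))) h.mρ
    ((h.mL.pow_const _).mul ((h.mΛ.pow_const _).mul (h.mρ.pow_const _))) hT
    (by positivity) h.c0 (add_nonneg h.K0 m0) h.mass ht fun x => ?_
  have l0 : 0 < L x := one_pos.trans_le (h.one x)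
  have r0 := h.posρ x
  have v0 := h.posΛ x
  set u := Real.log (Λ x / ρ x) + α * Real.log (L x) with hu
  have e : L x ^ (α / 2) * (Λ x ^ (1 / 2 : ℝ) * ρ x ^ (1 - 1 / 2 : ℝ)) = Real.exp (u / 2) * ρ x := by
    rw [Real.rpow_def_of_pos l0, Real.rpow_def_of_pos v0, Real.rpow_def_of_pos r0, hu,
      Real.log_div v0.ne' r0.ne', ← Real.exp_add, ← Real.exp_add]
    conv_rhs => rw [← Real.exp_log r0, ← Real.exp_add, Real.log_exp]
    congr 1
    ring
  rw [e]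
  have h1 : u ≤ T + 2 * Real.exp (-(T / 2)) * Real.exp (u / 2) := by
    have := Real.add_one_le_exp (-(T / 2) + u / 2)
    rw [Real.exp_add] at this
    linarith
  nlinarith [mul_le_mul_of_nonneg_right h1 r0.le]

/-- moments of the size from an exponential moment -/
theorem mom_exp (q : ℕ) {c0 A : ℝ} (hc : 0 < c0) (hA : 0 ≤ A) : ∃ c : ℝ, 0 ≤ c ∧
    ∀ {S : Type} [MeasurableSpace S] {μ : Measure S} {L σ ρ : S → ℝ} {C0 a : ℝ},
    Measurable σ → Measurable ρ → (∀ x, 0 ≤ ρ x) → (∀ x, 0 ≤ σ x) → (∀ x, 0 ≤ L x) →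
    (∀ x, L x ≤ A * σ x + A) → 0 ≤ C0 → 0 ≤ a →
    ∫⁻ x, ENNReal.ofReal (ρ x) ∂μ ≤ ENNReal.ofReal C0 →
    ∫⁻ x, ENNReal.ofReal (Real.exp (c0 * σ x) * ρ x) ∂μ ≤ ENNReal.ofReal (Real.exp a) →
    ∫⁻ x, ENNReal.ofReal (L x ^ q * ρ x) ∂μ ≤
      ENNReal.ofReal ((A * (2 * a / c0) + A) ^ q * C0 + c) := by
  obtain ⟨c, c1, hp⟩ := pow_le_exp q (half_pos hc)
  refine ⟨A ^ q * c * Real.exp (c0 / 2), by positivity,
    fun {S} _ {μ L σ ρ C0 a} mσ mρ r0 σ0 l0 hl hC ha h1 h2 => ?_⟩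
  refine (lint_two (g := fun x => Real.exp (c0 * σ x) * ρ x) mρ
    ((mσ.const_mul c0).exp.mul mρ) (a := (A * (2 * a / c0) + A) ^ q)
    (b := A ^ q * c * Real.exp (c0 / 2) * Real.exp (-a)) (by positivity) (by positivity) hC
    (Real.exp_pos a).le h1 h2 fun x => ?_).trans (le_of_eq ?_)
  · have r := r0 x
    have s := σ0 x
    have l := l0 x
    rcases le_or_gt (σ x) (2 * a / c0) with h3 | h3
    · have h4 : L x ≤ A * (2 * a / c0) + A := (hl x).trans (by gcongr)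
      have : L x ^ q * ρ x ≤ (A * (2 * a / c0) + A) ^ q * ρ x := by gcongr
      have : 0 ≤ A ^ q * c * Real.exp (c0 / 2) * Real.exp (-a) * (Real.exp (c0 * σ x) * ρ x) := by
        positivity
      linarith
    · have h4 : L x ^ q ≤ A ^ q * (σ x + 1) ^ q := by
        rw [← mul_pow]
        exact pow_le_pow_left₀ l (by linarith [hl x]) q
      have h5 : Real.exp (c0 / 2 * (σ x + 1)) ≤
          Real.exp (c0 / 2) * Real.exp (-a) * Real.exp (c0 * σ x) := by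
        rw [← Real.exp_add, ← Real.exp_add, Real.exp_le_exp]
        rw [div_lt_iff₀ hc] at h3
        linarith
      have h6 : L x ^ q ≤ A ^ q * (c * (Real.exp (c0 / 2) * Real.exp (-a) * Real.exp (c0 * σ x))) :=
        h4.trans (mul_le_mul_of_nonneg_left ((hp _ (by positivity)).trans
          (mul_le_mul_of_nonneg_left h5 (by linarith))) (by positivity))
      have : 0 ≤ (A * (2 * a / c0) + A) ^ q * ρ x := by positivity
      nlinarith [mul_le_mul_of_nonneg_right h6 r]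
  · rw [mul_assoc _ (Real.exp (-a)), ← Real.exp_add, neg_add_cancel, Real.exp_zero, mul_one]

/-- a polynomial is small against an exponential: the form used for the mean of the weight -/
theorem Tri.logp' (q : ℕ) {e C C0 K : ℝ} (he : 0 < e) (hC : 0 ≤ C) (h0 : 0 ≤ C0) (hK : 0 ≤ K) :
    ∃ C' : ℝ, 0 ≤ C' ∧ ∀ s : ℝ, 0 ≤ s → ∃ T : ℝ, 0 ≤ T ∧
      T * C0 + 2 * Real.exp (-(T / 2)) * (K + C * (1 + s) ^ q) ≤ e * s + C' := by
  set η := e / (C0 + 1) with hη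
  have η0 : 0 < η := by positivity
  obtain ⟨c, c1, hp⟩ := pow_le_exp q (half_pos η0)
  refine ⟨e + 2 * (K + C * c), by positivity, fun s hs => ⟨η * (1 + s), by positivity, ?_⟩⟩
  have h1 : η * C0 ≤ e := by
    rw [hη, div_mul_eq_mul_div, div_le_iff₀ (by positivity)]
    nlinarith
  have h2 := hp (1 + s) (by positivity)
  have h3 : Real.exp (-(η * (1 + s) / 2)) * Real.exp (η / 2 * (1 + s)) = 1 := by
    rw [← Real.exp_add, ← Real.exp_zero]; congr 1; ring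
  have h4 : Real.exp (-(η * (1 + s) / 2)) ≤ 1 :=
    Real.exp_le_one_iff.2 (neg_nonpos.2 (by positivity))
  have h5 := Real.exp_pos (-(η * (1 + s) / 2))
  have h6 : Real.exp (-(η * (1 + s) / 2)) * (1 + s) ^ q ≤ c := by
    nlinarith [mul_le_mul_of_nonneg_left h2 h5.le]
  nlinarith [mul_le_mul_of_nonneg_left h6 hC, mul_le_mul_of_nonneg_right h4 hK,
    mul_le_mul_of_nonneg_right h1 (by positivity : 0 ≤ 1 + s)]

end pure

open Tw

variable {R P ι : Type} [CommRing R] [Fintype ι] {ev : P → R →+* ℂ} {s0 : P → ℝ}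
  {Δ : MvPolynomial ι R} {Λ : P → (ι → ℂ) → ℝ} {K : ℝ} {M : ℕ}

theorem meas_sz (b : P) : Measurable (sz ev s0 Δ b) := by
  have h : Continuous fun a : ι → ℂ => MvPolynomial.eval₂ (ev b) a Δ := by
    simpa only [MvPolynomial.eval_map] using (MvPolynomial.map (ev b) Δ).continuous_eval
  exact measurable_const.add
    ((measurable_const.add measurable_norm).add h.measurable.norm.inv).log

theorem le_sz (b : P) (a : ι → ℂ) : 2 + s0 b ≤ sz ev s0 Δ b a :=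
  le_add_of_nonneg_right (Real.log_nonneg (by
    have := norm_nonneg a
    have : 0 ≤ ‖MvPolynomial.eval₂ (ev b) a Δ‖⁻¹ := by positivity
    linarith))

/-- one fibre: at most `d` sheets, a density `ρ` of mass at most `C0`, and the pointwise bound -/
structure In (ev : P → R →+* ℂ) (s0 : P → ℝ) (Δ : MvPolynomial ι R) (Λ : P → (ι → ℂ) → ℝ)
    (d : ℕ) (ε A C0 : ℝ) (b : P) {S : Type} [TopologicalSpace S] [MeasurableSpace S] (D : RD ι S)
    (ρ : S → ℝ) : Prop where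
  card : ∀ a, (D.π ⁻¹' {a}).encard ≤ d
  ne : ∀ p, MvPolynomial.eval₂ (ev b) (D.π p) Δ ≠ 0
  meas : Measurable ρ
  pos : ∀ p, 0 < ρ p
  mass : ∫⁻ p, ENNReal.ofReal (ρ p) ∂D.μ ≤ ENNReal.ofReal C0
  pt : ∀ p, ρ p * Real.exp (ε * sz ev s0 Δ b (D.π p)) ≤ Real.exp (A * s0 b + A) * Λ b (D.π p)

theorem lint_card {S : Type} [TopologicalSpace S] [MeasurableSpace S] [BorelSpace S]
    [SigmaCompactSpace S] (D : RD ι S) {d : ℕ} (hd : ∀ a, (D.π ⁻¹' {a}).encard ≤ d)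
    {F : (ι → ℂ) → ENNReal} (hF : Measurable F) : ∫⁻ p, F (D.π p) ∂D.μ ≤ d * ∫⁻ z, F z := by
  rw [D.lintegral_eq (F := fun p => F (D.π p)) (hF.comp D.loc.continuous.measurable),
    ← lintegral_const_mul _ hF]
  refine lintegral_mono fun z => ?_
  have e : ∀ p : D.π ⁻¹' {z}, F (D.π p) = F z := fun p => congrArg F p.2
  simp only [e, ENNReal.tsum_const]
  refine mul_le_mul_left ?_ _
  have := hd z
  rw [encard] at this
  exact_mod_cast ENat.toENNReal_le.2 this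

theorem tri {S : Type} [TopologicalSpace S] [MeasurableSpace S] [BorelSpace S]
    [SigmaCompactSpace S] {D : RD ι S} (h : Tow ev s0 Δ Λ K M) (h0 : ∀ b, 0 ≤ s0 b) {b : P} {d : ℕ}
    (hd : ∀ a, (D.π ⁻¹' {a}).encard ≤ d) (hs : ∀ p, MvPolynomial.eval₂ (ev b) (D.π p) Δ ≠ 0)
    {ρ : S → ℝ} (mρ : Measurable ρ) (ρ0 : ∀ p, 0 < ρ p) {C0 : ℝ} (hC : 0 ≤ C0)
    (mass : ∫⁻ p, ENNReal.ofReal (ρ p) ∂D.μ ≤ ENNReal.ofReal C0) :
    Tri D.μ (fun p => sz ev s0 Δ b (D.π p)) (fun p => Λ b (D.π p)) ρ M C0 (d * K) := by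
  have mπ := D.loc.continuous.measurable
  have k0 : 0 ≤ K := zero_le_one.trans h.one_le
  refine ⟨(meas_sz b).comp mπ, (h.meas b).comp mπ, mρ, fun p => ?_, fun p => h.pos b _ (hs p), ρ0,
    hC, by positivity, mass, ?_⟩
  · linarith [le_sz (ev := ev) (s0 := s0) (Δ := Δ) b (D.π p), h0 b]
  have hc : Continuous fun a : ι → ℂ => MvPolynomial.eval₂ (ev b) a Δ := by
    simpa only [MvPolynomial.eval_map] using (MvPolynomial.map (ev b) Δ).continuous_eval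
  have hU : MeasurableSet {a : ι → ℂ | MvPolynomial.eval₂ (ev b) a Δ ≠ 0} :=
    (isOpen_ne_fun hc continuous_const).measurableSet
  have hF : Measurable fun a => ENNReal.ofReal (Λ b a / sz ev s0 Δ b a ^ M) :=
    ((h.meas b).div ((meas_sz b).pow_const M)).ennreal_ofReal
  have h1 := lint_card D hd (hF.indicator hU)
  rw [lintegral_indicator hU] at h1
  refine le_trans (le_of_eq (lintegral_congr fun p => ?_)) (h1.trans ?_)
  · rw [indicator_of_mem (s := {a : ι → ℂ | MvPolynomial.eval₂ (ev b) a Δ ≠ 0}) (hs p)]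
  · rw [ENNReal.ofReal_mul (by positivity), ENNReal.ofReal_natCast]
    exact mul_le_mul_right (h.mass b) _

variable (h : Tow ev s0 Δ Λ K M) (h0 : ∀ b, 0 ≤ s0 b) (d : ℕ) {ε A C0 : ℝ} (hε : 0 < ε)
  (hA : 0 ≤ A) (hC : 0 ≤ C0)
include h h0 hε hA hC

/-- moments of the size grow polynomially in the size of the base point -/
theorem mom (q : ℕ) : ∃ C : ℝ, 0 ≤ C ∧ ∀ (b : P) {S : Type} [TopologicalSpace S] [MeasurableSpace S]
    [BorelSpace S] [SigmaCompactSpace S] (D : RD ι S) (ρ : S → ℝ), In ev s0 Δ Λ d ε A C0 b D ρ →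
    ∫⁻ p, ENNReal.ofReal (sz ev s0 Δ b (D.π p) ^ q * ρ p) ∂D.μ ≤
      ENNReal.ofReal (C * (1 + s0 b) ^ q) := by
  obtain ⟨c, c0, hc⟩ := mom_pure M q hε
  have k0 : 0 ≤ K := zero_le_one.trans h.one_le
  refine ⟨(2 * A / ε) ^ q * C0 + c * (d * K), by positivity, fun b S _ _ _ _ D ρ H => ?_⟩
  have s := h0 b
  refine (hc (tri h h0 H.card H.ne H.meas H.pos hC H.mass) (by positivity) H.pt).trans
    (ENNReal.ofReal_le_ofReal ?_)
  have e : (2 * (A * s0 b + A) / ε) ^ q = (2 * A / ε) ^ q * (1 + s0 b) ^ q := by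
    rw [← mul_pow]; congr 1; ring
  have h1 : 1 ≤ (1 + s0 b) ^ q := one_le_pow₀ (by linarith)
  have h2 : 0 ≤ c * (d * K) := by positivity
  rw [e]
  nlinarith

/-- the tail of the tower weight -/
theorem tail {γ : ℝ} (γ0 : 0 < γ) (γ1 : γ < 1) (α : ℝ) : ∃ (C : ℝ) (q : ℕ), 0 ≤ C ∧
    ∀ (b : P) {S : Type} [TopologicalSpace S] [MeasurableSpace S]
    [BorelSpace S] [SigmaCompactSpace S] (D : RD ι S) (ρ : S → ℝ), In ev s0 Δ Λ d ε A C0 b D ρ →
    ∫⁻ p, ENNReal.ofReal (sz ev s0 Δ b (D.π p) ^ α * (Λ b (D.π p) ^ γ * ρ p ^ (1 - γ))) ∂D.μ ≤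
      ENNReal.ofReal (C * (1 + s0 b) ^ q) := by
  obtain ⟨q, hq⟩ := exists_nat_ge ((M * γ + α) / (1 - γ))
  rw [div_le_iff₀ (by linarith)] at hq
  obtain ⟨C, c0, hc⟩ := mom h h0 d hε hA hC q
  have k0 : 0 ≤ K := zero_le_one.trans h.one_le
  refine ⟨d * K + C, q, by positivity, fun b S _ _ _ _ D ρ H => ?_⟩
  have s := h0 b
  refine ((tri h h0 H.card H.ne H.meas H.pos hC H.mass).tail γ0 γ1 hq (by positivity)
    (hc b D ρ H)).trans (ENNReal.ofReal_le_ofReal ?_)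
  have h1 : 1 ≤ (1 + s0 b) ^ q := one_le_pow₀ (by linarith)
  have h2 : 0 ≤ d * K := by positivity
  nlinarith

/-- the mean of the positive part of the tower weight is small against the size of the base point -/
theorem logp (α : ℝ) {e : ℝ} (he : 0 < e) : ∃ C : ℝ, 0 ≤ C ∧
    ∀ (b : P) {S : Type} [TopologicalSpace S] [MeasurableSpace S]
    [BorelSpace S] [SigmaCompactSpace S] (D : RD ι S) (ρ : S → ℝ), In ev s0 Δ Λ d ε A C0 b D ρ →
    ∫⁻ p, ENNReal.ofReal ((Real.log (Λ b (D.π p) / ρ p) + α * Real.log (sz ev s0 Δ b (D.π p))) *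
      ρ p) ∂D.μ ≤ ENNReal.ofReal (e * s0 b + C) := by
  obtain ⟨q, hq⟩ := exists_nat_ge (M + α)
  obtain ⟨C, c0, hc⟩ := mom h h0 d hε hA hC q
  have k0 : 0 ≤ K := zero_le_one.trans h.one_le
  obtain ⟨C', c1, hT⟩ := Tri.logp' q he c0 hC (K := d * K) (by positivity)
  refine ⟨C', c1, fun b S _ _ _ _ D ρ H => ?_⟩
  have s := h0 b
  obtain ⟨T, t0, ht⟩ := hT _ s
  exact ((tri h h0 H.card H.ne H.meas H.pos hC H.mass).logp hq (by positivity) (hc b D ρ H)
    t0).trans (ENNReal.ofReal_le_ofReal ht)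

end

end Pool.Agent.Lib.MP_5c318e_ag.Mm
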